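import Pool.Agent.Y515.CntG.Dat
import Pool.Agent.Y515.CntG.SumB

/-!
The semilinear equation `C (D Φ w) = σ(w)`: kernels and first facts.
-/

set_option autoImplicit false
set_option linter.unusedSectionVars false

open Polynomial Finset
open Pool.Agent.Y709 Pool.Agent.Y515.Cnt Pool.Agent.Y515.CntG

namespace Pool.Agent.Y515.CntS

variable {k : Type} [Field k] [Fintype k]

/-- `w` is fixed by `D` in the twisted sense -/
def IsFixS {r : ℕ} (q : ℕ) (σ : k →+* k) (Φ : Matrix (Fin r) (Fin r) k[X]) (D : k[X])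
    (w : Fin r → k[X]) : Prop :=
  ∀ i, cart q (D * ∑ j, Φ i j * w j) = (w i).map σ

open scoped Classical in
/-- the set of those `D` that fix `w` -/
noncomputable def FixS {r : ℕ} (q N : ℕ) (σ : k →+* k) (Φ : Matrix (Fin r) (Fin r) k[X])
    (w : Fin r → k[X]) : Finset k[X] := (PF k (N + 1)).filter (fun D => IsFixS q σ Φ D w)

theorem mem_FixS {r : ℕ} {q N : ℕ} {σ : k →+* k} {Φ : Matrix (Fin r) (Fin r) k[X]}
    {w : Fin r → k[X]} {D : k[X]} :
    D ∈ FixS q N σ Φ w ↔ D ∈ PF k (N + 1) ∧ IsFixS q σ Φ D w := by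
  classical
  unfold FixS
  rw [Finset.mem_filter]

theorem card_fixS_le {r : ℕ} {q N : ℕ} (hq0 : 0 < q) (σ : k →+* k)
    (Φ : Matrix (Fin r) (Fin r) k[X]) (w : Fin r → k[X]) :
    (FixS q N σ Φ w).card ≤ (KerF q N (mv Φ w)).card := by
  rcases (FixS q N σ Φ w).eq_empty_or_nonempty with h0 | ⟨D0, hD0⟩
  · rw [h0]; simp
  · apply Finset.card_le_card_of_injOn (fun D => D - D0)
    · intro D hD
      rw [Finset.mem_coe, mem_FixS] at hD
      rw [mem_FixS] at hD0
      rw [Finset.mem_coe, mem_KerF]
      refine ⟨sub_mem_PF hD.1 hD0.1, ?_⟩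
      intro i
      have h1 := hD.2 i
      have h2 := hD0.2 i
      unfold mv
      rw [sub_mul, cart_sub hq0, h1, h2, sub_self]
    · intro D _ D' _ h
      simpa using h

/-- kernel bound from independent components -/
theorem ker_indepQ {r s q N : ℕ} (hq0 : 0 < q) (v : Fin r → k[X])
    (i : Fin s → ℕ) (hi : ∀ l, i l < q)
    (hind : ∀ a : Fin s → k[X], (∀ b, ∑ l, a l * vcp q (i l) v b = 0) → a = 0) :
    (KerF q N v).card * Fintype.card k ^ (s * ((N + 1) / q)) ≤ Fintype.card k ^ (N + 1) := by
  classical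
  have h1 : ((KerF q N v) ×ˢ (Fintype.piFinset (fun _ : Fin s => PF k ((N + 1) / q)))).card ≤
      (PF k (N + 1)).card := by
    apply Finset.card_le_card_of_injOn (fun x => x.1 + ∑ l, X ^ (i l) * expand k q (x.2 l))
    · intro x hx
      rw [Finset.mem_coe, Finset.mem_product, Fintype.mem_piFinset, mem_KerF] at hx
      rw [Finset.mem_coe]
      apply add_mem_PF hx.1.1
      apply sum_mem_PF
      intro l _
      exact X_pow_expand_mem hq0 (hi l) (hx.2 l)
    · intro x hx y hy hxy
      rw [Finset.mem_coe, Finset.mem_product, mem_KerF] at hx hy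
      simp only at hxy
      have hD : x.1 - y.1 = ∑ l, X ^ (i l) * expand k q (y.2 l - x.2 l) := by
        have : ∑ l, X ^ (i l) * expand k q (y.2 l - x.2 l) =
            ∑ l, X ^ (i l) * expand k q (y.2 l) - ∑ l, X ^ (i l) * expand k q (x.2 l) := by
          rw [← Finset.sum_sub_distrib]
          apply Finset.sum_congr rfl
          intro l _
          rw [map_sub]; ring
        rw [this]
        linear_combination hxy
      have h2 : (fun l => y.2 l - x.2 l) = 0 := by
        apply hind
        intro b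
        have h3 : cart q ((x.1 - y.1) * v b) = 0 := by
          rw [sub_mul, cart_sub hq0, hx.1.2 b, hy.1.2 b, sub_self]
        rw [hD, Finset.sum_mul, cart_sum hq0] at h3
        rw [← h3]
        apply Finset.sum_congr rfl
        intro l _
        have : X ^ (i l) * expand k q (y.2 l - x.2 l) * v b =
            expand k q (y.2 l - x.2 l) * (X ^ (i l) * v b) := by ring
        rw [this, cart_expand_mul hq0]
        rfl
      have h4 : x.2 = y.2 := by
        ext1 l
        have := congrFun h2 l
        simp only [Pi.zero_apply] at this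
        exact (sub_eq_zero.1 this).symm
      have h5 : x.1 = y.1 := by
        rw [h4] at hxy
        exact add_right_cancel hxy
      exact Prod.ext h5 h4
  rw [Finset.card_product, Fintype.card_piFinset, Finset.prod_const, card_PF, card_PF,
    Finset.card_univ, Fintype.card_fin, ← pow_mul, mul_comm ((N + 1) / q)] at h1
  exact h1

/-- fixed vectors have small degree -/
theorem fixed_boundS {r q N M f ρ : ℕ} (hq0 : 1 < q) {σ : k →+* k}
    {Φ : Matrix (Fin r) (Fin r) k[X]}
    (hf : ∀ i j, (Φ i j).natDegree ≤ f) (hρ : ρ + f ≤ q - 1) (hρ1 : 1 ≤ ρ)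
    (hN : N + 1 = (q - 1) * M + ρ)
    {D : k[X]} (hD : D.natDegree ≤ N) {w : Fin r → k[X]} (hw : IsFixS q σ Φ D w) (i : Fin r) :
    w i ∈ PF k M := by
  classical
  apply mem_PF_of_natDegree
  intro hi
  -- an index of maximal degree
  obtain ⟨m, _, hm⟩ := Finset.exists_max_image Finset.univ (fun j => (w j).natDegree)
    ⟨i, Finset.mem_univ i⟩
  have hmi := hm i (Finset.mem_univ i)
  have key : ∀ j, w j ≠ 0 → (w j).natDegree = (w m).natDegree → (w m).natDegree < M := by
    intro j hj hjm
    have h1 : cart q (D * ∑ a, Φ j a * w a) ≠ 0 := by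
      rw [hw j]; exact (Polynomial.map_ne_zero_iff σ.injective).2 hj
    have h2 := natDegree_cart' (by omega) h1
    rw [hw j, Polynomial.natDegree_map_eq_of_injective σ.injective] at h2
    have h3 : (D * ∑ a, Φ j a * w a).natDegree ≤ N + (f + (w m).natDegree) := by
      refine natDegree_mul_le.trans (Nat.add_le_add hD ?_)
      apply natDegree_sum_le_of_forall_le
      intro a _
      exact natDegree_mul_le.trans (Nat.add_le_add (hf j a) (hm a (Finset.mem_univ a)))
    rw [hjm] at h2
    have h4 := h2.trans h3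
    by_contra hcon
    rw [not_lt] at hcon
    obtain ⟨t, rfl⟩ : ∃ t, q = t + 1 := ⟨q - 1, by omega⟩
    rw [Nat.add_sub_cancel] at *
    have h5 : t * M ≤ t * (w m).natDegree := Nat.mul_le_mul_left t hcon
    have h6 : (t + 1) * (w m).natDegree = t * (w m).natDegree + (w m).natDegree := by ring
    rw [h6] at h4
    omega
  by_cases h0 : w m = 0
  · have h1 : (w i).natDegree = (w m).natDegree := by
      rw [h0, natDegree_zero] at hmi ⊢
      omega
    have := key i hi h1
    omega
  · have := key m h0 rfl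
    omega

theorem isFixS_smul {r q : ℕ} (hq : 0 < q) {σ : k →+* k} {Φ : Matrix (Fin r) (Fin r) k[X]}
    {D : k[X]} {w : Fin r → k[X]} (hw : IsFixS q σ Φ D w) (c : k) (hc : σ c = c) :
    IsFixS q σ Φ D (fun i => C c * w i) := by
  intro i
  have : D * ∑ j, Φ i j * (C c * w j) = C c * (D * ∑ j, Φ i j * w j) := by
    rw [Finset.mul_sum, Finset.mul_sum, Finset.mul_sum]
    apply Finset.sum_congr rfl
    intro j _
    ring
  rw [this, cart_C_mul hq, hw i, Polynomial.map_mul, Polynomial.map_C, hc]

/-- the number of fixed scalars -/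
theorem card_fixed {q s : ℕ} (hq1 : 2 ≤ q) (hs : 0 < s) (hq : Fintype.card k = q ^ s)
    {σ : k →+* k} (hσ : ∀ x, σ x = x ^ q) [DecidableEq k] :
    q - 1 ≤ (Finset.univ.filter (fun c : k => c ≠ 0 ∧ σ c = c)).card := by
  classical
  obtain ⟨g, hg⟩ := IsCyclic.exists_ofOrder_eq_natCard (α := kˣ)
  have hn : Nat.card kˣ = q ^ s - 1 := by
    rw [Nat.card_eq_fintype_card, Fintype.card_units, hq]
  obtain ⟨m, hm⟩ : (q - 1) ∣ q ^ s - 1 := by
    have := Nat.sub_dvd_pow_sub_pow q 1 s
    simpa using this
  have hpos : 0 < q ^ s - 1 := by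
    have : q ^ 1 ≤ q ^ s := Nat.pow_le_pow_right (by omega) hs
    rw [pow_one] at this
    omega
  have hm0 : m ≠ 0 := by
    rintro rfl
    rw [mul_zero] at hm
    omega
  have ho : orderOf (g ^ m) = q - 1 := by
    rw [orderOf_pow_of_dvd hm0 (by rw [hg, hn, hm]; exact Dvd.intro_left _ rfl), hg, hn, hm,
      Nat.mul_div_cancel _ (Nat.pos_of_ne_zero hm0)]
  have h1 : (Finset.range (q - 1)).card ≤
      (Finset.univ.filter (fun c : k => c ≠ 0 ∧ σ c = c)).card := by
    apply Finset.card_le_card_of_injOn (fun j => (((g ^ m) ^ j : kˣ) : k))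
    · intro j _
      rw [Finset.mem_coe, Finset.mem_filter]
      refine ⟨Finset.mem_univ _, Units.ne_zero _, ?_⟩
      rw [hσ]
      have e : ((g ^ m) ^ j) ^ q = (g ^ m) ^ j := by
        have h2 : ((g ^ m) ^ j) ^ (q - 1) = 1 := by
          rw [← pow_mul, mul_comm j, pow_mul, ← ho, pow_orderOf_eq_one, one_pow]
        have h3 : q = (q - 1) + 1 := by omega
        rw [h3, pow_succ, h2, one_mul]
      have := congrArg (fun u : kˣ => (u : k)) e
      simpa using this
    · intro a ha b hb hab
      have h2 : (g ^ m) ^ a = (g ^ m) ^ b := Units.ext hab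
      rw [Finset.mem_coe, Finset.mem_range] at ha hb
      exact pow_injOn_Iio_orderOf (by rw [ho]; exact ha) (by rw [ho]; exact hb) h2
  rw [Finset.card_range] at h1
  exact h1

end Pool.Agent.Y515.CntS
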