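import Pool.Agent.Y515.CntS.SumB

/-!
Semilinear version: the count for an irreducible matrix.
-/

set_option autoImplicit false
set_option linter.unusedSectionVars false

open Polynomial Finset
open Pool.Agent.Y709 Pool.Agent.Y515.Cnt Pool.Agent.Y515.CntG

namespace Pool.Agent.Y515.CntS

variable {k : Type} [Field k] [Fintype k]

open scoped Classical in
/-- the set of bad polynomials -/
noncomputable def BadS {r : ℕ} (q N : ℕ) (σ : k →+* k) (Φ : Matrix (Fin r) (Fin r) k[X]) :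
    Finset k[X] :=
  (PF k (N + 1)).filter (fun D => ∃ w : Fin r → k[X], w ≠ 0 ∧ IsFixS q σ Φ D w)

theorem mem_BadS {r : ℕ} {q N : ℕ} {σ : k →+* k} {Φ : Matrix (Fin r) (Fin r) k[X]} {D : k[X]} :
    D ∈ BadS q N σ Φ ↔ D.natDegree ≤ N ∧ ∃ w : Fin r → k[X], w ≠ 0 ∧ IsFixS q σ Φ D w := by
  classical
  unfold BadS
  rw [Finset.mem_filter, mem_PF_succ]

theorem natcard_badS {r : ℕ} {q N : ℕ} (σ : k →+* k) (Φ : Matrix (Fin r) (Fin r) k[X]) :
    Nat.card {D : k[X] // D.natDegree ≤ N ∧ ∃ w : Fin r → k[X], w ≠ 0 ∧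
      ∀ i, cart q (D * ∑ j, Φ i j * w j) = (w i).map σ} = (BadS q N σ Φ).card := by
  have h0 : Nat.card {D : k[X] // D.natDegree ≤ N ∧ ∃ w : Fin r → k[X], w ≠ 0 ∧
      ∀ i, cart q (D * ∑ j, Φ i j * w j) = (w i).map σ} = Nat.card {D : k[X] // D ∈ BadS q N σ Φ} := by
    apply Nat.card_congr
    refine Equiv.subtypeEquivRight ?_
    intro D
    rw [mem_BadS]
    rfl
  rw [h0, Nat.card_eq_fintype_card, Fintype.card_coe]

theorem bad_irredS {r q s f M N ρ : ℕ} (hqk : Fintype.card k = q ^ s) (hs : 0 < s)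
    (hr : 1 ≤ r) (hlat : LatGen k q r) {σ τ : k →+* k} (hσ : ∀ x, σ x = x ^ q)
    (hστ : ∀ x, σ (τ x) = x) (hτσ : ∀ x, τ (σ x) = x)
    {Φ : Matrix (Fin r) (Fin r) k[X]} (hdet : Φ.det ≠ 0)
    (hirr : IrrS σ Φ) (hf : ∀ i j, (Φ i j).natDegree ≤ f)
    (hq : r * f + 3 * r ^ 2 + 6 * r + 8 ≤ q) (hM : 4 * r ^ 2 + 8 ≤ M)
    (hρr : r + 1 ≤ ρ) (hρ : ρ + f ≤ q - 1)
    (hN : N + 1 = (q - 1) * M + ρ) : q * (BadS q N σ Φ).card ≤ 2 * Fintype.card k ^ (N + 1) := by
  classical
  have hq0 : 0 < q := by omega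
  have hqQ : q ≤ Fintype.card k := by
    rw [hqk]
    exact Nat.le_self_pow (by omega) q
  set Q := Fintype.card k with hQdef
  have hQk : Fintype.card k = Q := hQdef.symm
  have hQ : (5 : ℝ) ≤ (Q : ℝ) := by
    have : 5 ≤ Q := by omega
    exact_mod_cast this
  have hQ0 : (0 : ℝ) < (Q : ℝ) := by linarith
  have hq5 : (5 : ℝ) ≤ (q : ℝ) := by
    have : 5 ≤ q := by omega
    exact_mod_cast this
  set T : Finset (Fin r → k[X]) := (Fintype.piFinset (fun _ : Fin r => PF k M)).filter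
    (fun w => w ≠ 0 ∧ ∃ D : k[X], D.natDegree ≤ N ∧ IsFixS q σ Φ D w) with hT
  have hTmem : ∀ w ∈ T, (∀ b, w b ∈ PF k M) ∧ w ≠ 0 ∧
      ∃ D : k[X], D.natDegree ≤ N ∧ IsFixS q σ Φ D w := by
    intro w hw
    rw [hT, Finset.mem_filter, Fintype.mem_piFinset] at hw
    exact hw
  -- double counting
  have hdouble : (q - 1) * (BadS q N σ Φ).card ≤ ∑ w ∈ T, (FixS q N σ Φ w).card := by
    have h1 : ∑ w ∈ T, (FixS q N σ Φ w).card =
        ∑ D ∈ PF k (N + 1), (T.filter (fun w => IsFixS q σ Φ D w)).card := by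
      simp only [FixS, Finset.card_filter]
      rw [Finset.sum_comm]
    rw [h1]
    calc (q - 1) * (BadS q N σ Φ).card = ∑ D ∈ BadS q N σ Φ, (q - 1) := by
          rw [Finset.sum_const, smul_eq_mul, mul_comm]
      _ ≤ ∑ D ∈ BadS q N σ Φ, (T.filter (fun w => IsFixS q σ Φ D w)).card := by
          apply Finset.sum_le_sum
          intro D hD
          rw [mem_BadS] at hD
          obtain ⟨hDN, w, hw0, hfix⟩ := hD
          have hcu := card_fixed (k := k) (by omega) hs hqk hσ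
          refine hcu.trans ?_
          obtain ⟨b, hb⟩ : ∃ b, w b ≠ 0 := by
            by_contra hcon
            push Not at hcon
            exact hw0 (funext hcon)
          apply Finset.card_le_card_of_injOn (fun c : k => fun i => C c * w i)
          · intro c hc
            rw [Finset.mem_coe, Finset.mem_filter] at hc
            have hfc := isFixS_smul hq0 hfix c hc.2.2
            rw [Finset.mem_coe, Finset.mem_filter]
            refine ⟨?_, hfc⟩
            rw [hT, Finset.mem_filter, Fintype.mem_piFinset]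
            refine ⟨fun i => fixed_boundS (by omega) hf hρ (by omega) hN hDN hfc i, ?_, D, hDN, hfc⟩
            intro h0
            have h1 := congrFun h0 b
            have hC : (C c : k[X]) ≠ 0 := C_ne_zero.2 hc.2.1
            exact (mul_ne_zero hC hb) h1
          · intro c _ c' _ h
            have h1 := congrFun h b
            exact C_injective (mul_right_cancel₀ hb h1)
      _ ≤ _ := by
          apply Finset.sum_le_sum_of_subset
          intro D hD
          rw [mem_BadS] at hD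
          rw [mem_PF_succ]
          exact hD.1
  -- splitting the sum
  set T1 := T.filter (fun w => ∃ L : Fin r → k[X], L ≠ 0 ∧ ∑ b, expand k q (L b) * mv Φ w b = 0)
    with hT1
  set T2 := T.filter (fun w => ¬ ∃ L : Fin r → k[X], L ≠ 0 ∧ ∑ b, expand k q (L b) * mv Φ w b = 0)
    with hT2
  have hM1 : 1 ≤ M := by omega
  have hex : ∀ w ∈ T2, ∃ nA : (Fin r → k[X]) × (Fin r → Fin r → k[X]),
      DtQ q N (M - 1 + f) (mv Φ w) nA.1 nA.2 := by
    intro w hw
    rw [hT2, Finset.mem_filter] at hw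
    have hww := hTmem w hw.1
    obtain ⟨n, A, h⟩ := exists_dtQ hr hlat hq hM hρ hN (mv Φ w)
      (natDegree_mv_le hf hM1 hww.1) (by
        intro a ha
        by_contra hne
        exact hw.2 ⟨a, hne, ha⟩)
    exact ⟨(n, A), h⟩
  have hnonempty : Nonempty ((Fin r → k[X]) × (Fin r → Fin r → k[X])) := ⟨(0, 0)⟩
  choose! nA hnA using hex
  have s1 : ∑ w ∈ T1, ((FixS q N σ Φ w).card : ℝ) ≤ (Q : ℝ) ^ N := by
    apply sum_lowS hQk hqQ hστ hτσ hdet hirr hf hq hM (by omega) hρ hN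
    intro w hw
    rw [hT1, Finset.mem_filter] at hw
    obtain ⟨h1, h2, D, _, hD⟩ := hTmem w hw.1
    exact ⟨h1, h2, ⟨D, hD⟩, hw.2⟩
  have s2 : ∑ w ∈ T2, ((KerF q N (mv Φ w)).card : ℝ) ≤
      ((Q : ℝ) ^ (N + 1) + (Q : ℝ) ^ N) + (Q : ℝ) ^ N := by
    rw [← Finset.sum_filter_add_sum_filter_not T2
      (fun w => ∀ j, M - 1 + f < ((nA w).1 j).natDegree + q)]
    apply add_le_add
    · apply sum_constQ hQk hqQ hr hdet hq hM hρr hN _ (fun w => (nA w).1) (fun w => (nA w).2)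
      intro w hw
      rw [Finset.mem_filter] at hw
      refine ⟨?_, hnA w hw.1, hw.2⟩
      have := hw.1
      rw [hT2, Finset.mem_filter] at this
      exact (hTmem w this.1).1
    · apply sum_shortQ hQk hqQ hdet hq hM hN _ (fun w => (nA w).1) (fun w => (nA w).2)
      intro w hw
      rw [Finset.mem_filter] at hw
      refine ⟨hnA w hw.1, ?_⟩
      have := hw.2
      push Not at this
      exact this
  have hsum : ∑ w ∈ T, ((FixS q N σ Φ w).card : ℝ) ≤ (Q : ℝ) ^ (N + 1) + 3 * (Q : ℝ) ^ N := by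
    rw [← Finset.sum_filter_add_sum_filter_not T
      (fun w => ∃ L : Fin r → k[X], L ≠ 0 ∧ ∑ b, expand k q (L b) * mv Φ w b = 0)]
    have s3 : ∑ w ∈ T2, ((FixS q N σ Φ w).card : ℝ) ≤ ∑ w ∈ T2, ((KerF q N (mv Φ w)).card : ℝ) := by
      apply Finset.sum_le_sum
      intro w _
      exact_mod_cast card_fixS_le hq0 σ Φ w
    have := s3.trans s2
    linarith
  have hfinal : ((q : ℝ) - 1) * ((BadS q N σ Φ).card : ℝ) ≤
      (Q : ℝ) ^ (N + 1) + 3 * (Q : ℝ) ^ N := by
    have h1 : (((q - 1) * (BadS q N σ Φ).card : ℕ) : ℝ) ≤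
        ((∑ w ∈ T, (FixS q N σ Φ w).card : ℕ) : ℝ) := by
      exact_mod_cast hdouble
    rw [Nat.cast_mul, Nat.cast_sub (by omega), Nat.cast_one, Nat.cast_sum] at h1
    exact h1.trans hsum
  have hR : (q : ℝ) * ((BadS q N σ Φ).card : ℝ) ≤ 2 * (Q : ℝ) ^ (N + 1) := by
    have hpos : (0 : ℝ) < (Q : ℝ) ^ N := by positivity
    have hB : (0 : ℝ) ≤ ((BadS q N σ Φ).card : ℝ) := by positivity
    have h4 : 4 * ((q : ℝ) * ((BadS q N σ Φ).card : ℝ)) ≤
        5 * (((q : ℝ) - 1) * ((BadS q N σ Φ).card : ℝ)) := by nlinarith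
    have h5 : 15 * (Q : ℝ) ^ N ≤ 3 * (Q : ℝ) ^ (N + 1) := by
      rw [pow_succ]; nlinarith
    linarith
  exact_mod_cast hR

end Pool.Agent.Y515.CntS
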