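import Pool.Agent.Y515.CntS.Irred
import Pool.Agent.Y709.Gen.LatC
import Mathlib.LinearAlgebra.Matrix.Basis
import Mathlib.LinearAlgebra.Determinant
import Mathlib.LinearAlgebra.FiniteDimensional.Lemmas

/-!
Semilinear version: reduction of the count to irreducible matrices.
-/

set_option autoImplicit false
set_option linter.unusedSectionVars false

open Polynomial Finset
open Pool.Agent.Y709 Pool.Agent.Y515.Cnt Pool.Agent.Y515.CntG

namespace Pool.Agent.Y515.CntS

variable {k : Type} [Field k] [Fintype k]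

theorem bad_redS {r q N f : ℕ} (hq0 : 0 < q) (σ : k →+* k) (Φ : Matrix (Fin r) (Fin r) k[X]) (hdet : Φ.det ≠ 0)
    (hf : ∀ i j, (Φ i j).natDegree ≤ f)
    (U : Submodule k (Fin r → k)) (hU : StabS σ Φ U) (hbot : U ≠ ⊥) (htop : U ≠ ⊤) :
    ∃ (r1 r2 : ℕ) (Φ1 : Matrix (Fin r1) (Fin r1) k[X]) (Φ2 : Matrix (Fin r2) (Fin r2) k[X]),
      r1 + r2 = r ∧ r1 < r ∧ r2 < r ∧ Φ1.det ≠ 0 ∧ Φ2.det ≠ 0 ∧
      (∀ i j, (Φ1 i j).natDegree ≤ f) ∧ (∀ i j, (Φ2 i j).natDegree ≤ f) ∧
      (BadS q N σ Φ).card ≤ (BadS q N σ Φ1).card + (BadS q N σ Φ2).card := by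
  classical
  obtain ⟨U', hc⟩ := Submodule.exists_isCompl U
  have hfin := Submodule.finrank_add_eq_of_isCompl hc
  rw [Module.finrank_fin_fun] at hfin
  have hr1 : Module.finrank k U < r := by
    have := Submodule.finrank_lt htop
    rw [Module.finrank_fin_fun] at this
    exact this
  have hr0 : 1 ≤ Module.finrank k U := Submodule.one_le_finrank_iff.2 hbot
  let b1 := Module.finBasis k U
  let b2 := Module.finBasis k U'
  let b := (b1.prod b2).map (Submodule.prodEquivOfIsCompl U U' hc)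
  have hbl : ∀ i, b (Sum.inl i) ∈ U := by
    intro i
    have : b (Sum.inl i) = (b1 i : Fin r → k) := by
      simp only [b, Module.Basis.map_apply, Submodule.coe_prodEquivOfIsCompl',
        Module.Basis.prod_apply_inl_fst, Module.Basis.prod_apply_inl_snd]
      simp
    rw [this]
    exact (b1 i).2
  have hrep : ∀ u ∈ U, ∀ j, b.repr u (Sum.inr j) = 0 := by
    intro u hu j
    have h1 : b.repr u = (b1.prod b2).repr ((Submodule.prodEquivOfIsCompl U U' hc).symm u) := rfl
    have h2 : (Submodule.prodEquivOfIsCompl U U' hc).symm u = ((⟨u, hu⟩ : U), 0) :=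
      Submodule.prodEquivOfIsCompl_symm_apply_left U U' hc ⟨u, hu⟩
    rw [h1, h2, Module.Basis.prod_repr_inr]
    simp
  set P : Matrix (Fin r) (Fin (Module.finrank k U) ⊕ Fin (Module.finrank k U')) k :=
    (Pi.basisFun k (Fin r)).toMatrix b with hP
  set Q : Matrix (Fin (Module.finrank k U) ⊕ Fin (Module.finrank k U')) (Fin r) k :=
    b.toMatrix (Pi.basisFun k (Fin r)) with hQ
  have hPQ : P * Q = 1 := Module.Basis.toMatrix_mul_toMatrix_flip _ _
  have hQP : Q * P = 1 := Module.Basis.toMatrix_mul_toMatrix_flip _ _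
  have hPij : ∀ i j, P i j = b j i := by
    intro i j
    rw [hP, Module.Basis.toMatrix_apply, Pi.basisFun_repr]
  have hQmul : ∀ (x : Fin r → k) (j), ∑ a, Q j a * x a = b.repr x j := by
    intro x j
    have h1 := congrFun (Module.Basis.toMatrix_mulVec_repr (Pi.basisFun k (Fin r)) b x) j
    rw [← h1]
    rfl
  set PC := P.map (C : k →+* k[X]) with hPC
  set QC := Q.map (C : k →+* k[X]) with hQC
  have hPQC : PC * QC = 1 := by
    rw [hPC, hQC, ← Matrix.map_mul, hPQ, Matrix.map_one _ (map_zero _) (map_one _)]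
  have hQPC : QC * PC = 1 := by
    rw [hPC, hQC, ← Matrix.map_mul, hQP, Matrix.map_one _ (map_zero _) (map_one _)]
  set PS := (P.map σ).map (C : k →+* k[X]) with hPS
  set QS := (Q.map σ).map (C : k →+* k[X]) with hQS
  have hQPS : QS * PS = 1 := by
    rw [hPS, hQS, ← Matrix.map_mul, ← Matrix.map_mul, hQP, Matrix.map_one _ (map_zero _) (map_one _),
      Matrix.map_one _ (map_zero _) (map_one _)]
  set Ψ := QS * Φ * PC with hΨ
  have hdetΨ : Ψ.det ≠ 0 := by
    have e1 : Ψ = (QS * PC) * (QC * Φ * PC) := by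
      have : (QS * PC) * (QC * Φ * PC) = QS * (PC * QC) * Φ * PC := by
        simp only [Matrix.mul_assoc]
      rw [this, hPQC, Matrix.mul_one]
    have e2 : (QS * PC) * (QC * PS) = 1 := by
      have : (QS * PC) * (QC * PS) = QS * (PC * QC) * PS := by
        simp only [Matrix.mul_assoc]
      rw [this, hPQC, Matrix.mul_one, hQPS]
    have e3 : (QS * PC).det ≠ 0 := by
      intro h0
      have := congrArg Matrix.det e2
      rw [Matrix.det_mul, h0, zero_mul, Matrix.det_one] at this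
      exact zero_ne_one this
    rw [e1, Matrix.det_mul, Matrix.det_conj_of_mul_eq_one hQPC hPQC]
    exact mul_ne_zero e3 hdet
  have hent : ∀ i j, Ψ i j = ∑ a, C (σ (Q i a)) * ∑ c, Φ a c * C (P c j) := by
    intro i j
    rw [hΨ, Matrix.mul_assoc, Matrix.mul_apply]
    apply Finset.sum_congr rfl
    intro a _
    rw [Matrix.mul_apply]
    rfl
  have hzero : ∀ i j, Ψ (Sum.inr j) (Sum.inl i) = 0 := by
    intro i j
    rw [hent]
    ext n
    rw [finsetSum_coeff, coeff_zero]
    obtain ⟨u', hu', h1⟩ := hU (b (Sum.inl i)) (hbl i) n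
    have h2 := congrArg σ (hrep _ hu' j)
    rw [map_zero, ← hQmul, map_sum] at h2
    rw [← h2]
    apply Finset.sum_congr rfl
    intro a _
    rw [coeff_C_mul, map_mul, ← congrFun h1 a]
    simp only [hPij]
  have hdegΨ : ∀ i j, (Ψ i j).natDegree ≤ f := by
    intro i j
    rw [hent]
    apply natDegree_sum_le_of_forall_le
    intro a _
    refine (natDegree_C_mul_le _ _).trans ?_
    apply natDegree_sum_le_of_forall_le
    intro c _
    exact (natDegree_mul_C_le _ _).trans (hf a c)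
  have hblocks : Ψ = Matrix.fromBlocks Ψ.toBlocks₁₁ Ψ.toBlocks₁₂ 0 Ψ.toBlocks₂₂ := by
    have h0 : Ψ.toBlocks₂₁ = 0 := by
      ext j i
      rw [Matrix.toBlocks₂₁, Matrix.of_apply, hzero]
      rfl
    rw [← h0, Matrix.fromBlocks_toBlocks]
  have hdet12 : Ψ.toBlocks₁₁.det * Ψ.toBlocks₂₂.det ≠ 0 := by
    rw [← Matrix.det_fromBlocks_zero₂₁ Ψ.toBlocks₁₁ Ψ.toBlocks₁₂ Ψ.toBlocks₂₂, ← hblocks]
    exact hdetΨ
  refine ⟨_, _, Ψ.toBlocks₁₁, Ψ.toBlocks₂₂, hfin, hr1, by omega, left_ne_zero_of_mul hdet12,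
    right_ne_zero_of_mul hdet12, fun i j => hdegΨ _ _, fun i j => hdegΨ _ _, ?_⟩
  refine (Finset.card_le_card ?_).trans (Finset.card_union_le _ _)
  intro D hD
  rw [mem_BadS] at hD
  obtain ⟨hDN, w, hw0, hw⟩ := hD
  -- transport the fixed vector
  set w' := QC.mulVec w with hw'
  have hw'0 : w' ≠ 0 := by
    intro h0
    apply hw0
    have h1 : PC.mulVec w' = w := by
      rw [hw', Matrix.mulVec_mulVec, hPQC, Matrix.one_mulVec]
    rw [← h1, h0, Matrix.mulVec_zero]
  have hfix : ∀ i, cart q (D * (Ψ.mulVec w') i) = (w' i).map σ := by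
    intro i
    have h1 : Ψ.mulVec w' = QS.mulVec (Φ.mulVec w) := by
      rw [hw', hΨ, Matrix.mulVec_mulVec, Matrix.mul_assoc, hPQC, Matrix.mul_one,
        ← Matrix.mulVec_mulVec]
    have h2 : D * (Ψ.mulVec w') i = ∑ a, C (σ (Q i a)) * (D * ∑ j, Φ a j * w j) := by
      rw [h1]
      show D * ∑ a, QS i a * (Φ.mulVec w) a = _
      rw [Finset.mul_sum]
      apply Finset.sum_congr rfl
      intro a _
      have : (Φ.mulVec w) a = ∑ j, Φ a j * w j := rfl
      rw [this]
      simp only [hQS, Matrix.map_apply]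
      ring
    rw [h2, cart_sum hq0]
    show _ = (∑ a, QC i a * w a).map σ
    rw [Polynomial.map_sum]
    apply Finset.sum_congr rfl
    intro a _
    rw [cart_C_mul hq0, hw a, Polynomial.map_mul]
    simp only [hQC, Matrix.map_apply, Polynomial.map_C]
  have hsplit : ∀ i, (Ψ.mulVec w') i = ∑ a, Ψ i (Sum.inl a) * w' (Sum.inl a) +
      ∑ a, Ψ i (Sum.inr a) * w' (Sum.inr a) := by
    intro i
    show ∑ a, Ψ i a * w' a = _
    rw [Fintype.sum_sum_type]
  rw [Finset.mem_union, mem_BadS, mem_BadS]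
  by_cases h2 : (fun a => w' (Sum.inr a)) = 0
  · left
    refine ⟨hDN, fun a => w' (Sum.inl a), ?_, ?_⟩
    · intro h1
      apply hw'0
      ext1 i
      rcases i with i | i
      · exact congrFun h1 i
      · exact congrFun h2 i
    · intro i
      have h3 := hfix (Sum.inl i)
      rw [hsplit] at h3
      have h4 : ∑ a, Ψ (Sum.inl i) (Sum.inr a) * w' (Sum.inr a) = 0 := by
        apply Finset.sum_eq_zero
        intro a _
        have : w' (Sum.inr a) = 0 := congrFun h2 a
        rw [this, mul_zero]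
      rw [h4, add_zero] at h3
      exact h3
  · right
    refine ⟨hDN, fun a => w' (Sum.inr a), h2, ?_⟩
    intro i
    have h3 := hfix (Sum.inr i)
    rw [hsplit] at h3
    have h4 : ∑ a, Ψ (Sum.inr i) (Sum.inl a) * w' (Sum.inl a) = 0 := by
      apply Finset.sum_eq_zero
      intro a _
      rw [hzero, zero_mul]
    rw [h4, zero_add] at h3
    exact h3

end Pool.Agent.Y515.CntS

namespace Pool.Agent.Y515

open CntS

/-- the rank `r` count, semilinear version -/
theorem cntSL (k : Type) [Field k] [Fintype k] (q s : ℕ) (hq : Fintype.card k = q ^ s) (p f0 : ℕ)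
    [Fact p.Prime] [CharP k p] (hqp : q = p ^ f0) (hs : 0 < s) (σ : k →+* k)
    (hσ : ∀ x, σ x = x ^ q) :
    ∀ r (Φ : Matrix (Fin r) (Fin r) k[X]) (f ρ M N : ℕ), Φ.det ≠ 0 →
      (∀ i j, (Φ i j).natDegree ≤ f) → r * f + 3 * r ^ 2 + 6 * r + 8 ≤ q → r + 1 ≤ ρ →
      ρ + f ≤ q - 1 → 4 * r ^ 2 + 8 ≤ M → N + 1 = (q - 1) * M + ρ →
      q * Nat.card {D : k[X] // D.natDegree ≤ N ∧ ∃ w : Fin r → k[X], w ≠ 0 ∧
        ∀ i, cart q (D * ∑ j, Φ i j * w j) = (w i).map σ} ≤ 2 * r * Nat.card k ^ (N + 1) := by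
  classical
  -- the inverse of the Frobenius
  have hbij : Function.Bijective σ :=
    Finite.injective_iff_bijective.1 σ.injective
  let e : k ≃+* k := RingEquiv.ofBijective σ hbij
  have hστ : ∀ x, σ ((e.symm : k →+* k) x) = x := fun x => e.apply_symm_apply x
  have hτσ : ∀ x, (e.symm : k →+* k) (σ x) = x := fun x => e.symm_apply_apply x
  intro r
  induction r using Nat.strong_induction_on with
  | _ r ih =>
    intro Φ f ρ M N hdet hf hqf hρr hρ hM hN
    have hq0 : 0 < q := by omega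
    rcases Nat.eq_zero_or_pos r with h0 | hr
    · subst h0
      rw [natcard_badS]
      have : BadS q N σ Φ = ∅ := by
        rw [Finset.eq_empty_iff_forall_notMem]
        intro D hD
        rw [mem_BadS] at hD
        obtain ⟨_, w, hw, _⟩ := hD
        exact hw (Subsingleton.elim _ _)
      rw [this]
      simp
    · by_cases hirr : IrrS σ Φ
      · rw [natcard_badS, Nat.card_eq_fintype_card]
        have h1 := bad_irredS hq hs hr (Pool.Agent.Y709.Gen.latGen k q hq0 r) hσ hστ hτσ hdet hirr hf hqf hM hρr hρ hN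
        refine h1.trans ?_
        apply Nat.mul_le_mul_right
        omega
      · unfold IrrS at hirr
        push Not at hirr
        obtain ⟨U, hU, hbot, htop⟩ := hirr
        obtain ⟨r1, r2, Φ1, Φ2, hr12, hr1, hr2, hd1, hd2, hf1, hf2, hcard⟩ :=
          bad_redS (q := q) (N := N) hq0 σ Φ hdet hf U hU hbot htop
        have hq1 : r1 * f + 3 * r1 ^ 2 + 6 * r1 + 8 ≤ q := by
          have a1 : r1 * f ≤ r * f := Nat.mul_le_mul_right _ hr1.le
          have a2 : r1 ^ 2 ≤ r ^ 2 := Nat.pow_le_pow_left hr1.le 2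
          omega
        have hq2 : r2 * f + 3 * r2 ^ 2 + 6 * r2 + 8 ≤ q := by
          have a1 : r2 * f ≤ r * f := Nat.mul_le_mul_right _ hr2.le
          have a2 : r2 ^ 2 ≤ r ^ 2 := Nat.pow_le_pow_left hr2.le 2
          omega
        have a1 : r1 ^ 2 ≤ r ^ 2 := Nat.pow_le_pow_left hr1.le 2
        have a2 : r2 ^ 2 ≤ r ^ 2 := Nat.pow_le_pow_left hr2.le 2
        have i1 := ih r1 hr1 Φ1 f ρ M N hd1 hf1 hq1 (by omega) hρ (by omega) hN
        have i2 := ih r2 hr2 Φ2 f ρ M N hd2 hf2 hq2 (by omega) hρ (by omega) hN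
        rw [natcard_badS] at i1 i2 ⊢
        refine (Nat.mul_le_mul_left q hcard).trans ?_
        rw [mul_add]
        refine (Nat.add_le_add i1 i2).trans (le_of_eq ?_)
        rw [← hr12]
        ring

end Pool.Agent.Y515
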