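import Pool.Agent.Y515.CntS.Kernel

/-!
Semilinear version: vectors whose components do not span, and the use of irreducibility.
-/

set_option autoImplicit false
set_option linter.unusedSectionVars false

open Polynomial Finset
open Pool.Agent.Y709 Pool.Agent.Y515.Cnt Pool.Agent.Y515.CntG

namespace Pool.Agent.Y515.CntS

variable {k : Type} [Field k] [Fintype k]

/-- twisted stability of a subspace over the constants -/
def StabS {r : ℕ} (σ : k →+* k) (Φ : Matrix (Fin r) (Fin r) k[X])
    (U : Submodule k (Fin r → k)) : Prop :=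
  ∀ u ∈ U, ∀ n : ℕ, ∃ u' ∈ U, (fun i => (∑ j, Φ i j * C (u j)).coeff n) = fun i => σ (u' i)

/-- there is no stable subspace -/
def IrrS {r : ℕ} (σ : k →+* k) (Φ : Matrix (Fin r) (Fin r) k[X]) : Prop :=
  ∀ U : Submodule k (Fin r → k), StabS σ Φ U → U = ⊥ ∨ U = ⊤

theorem map_map_id {σ τ : k →+* k} (h : ∀ x, τ (σ x) = x) (p : k[X]) :
    (p.map σ).map τ = p := by
  ext n
  rw [coeff_map, coeff_map, h]

theorem irr_lemmaS {r q f : ℕ} (hq0 : 0 < q) {σ τ : k →+* k} (hστ : ∀ x, σ (τ x) = x)
    (hτσ : ∀ x, τ (σ x) = x) {Φ : Matrix (Fin r) (Fin r) k[X]} (hdet : Φ.det ≠ 0)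
    (hirr : IrrS σ Φ) (hf : ∀ i j, (Φ i j).natDegree ≤ f) (hfq : f + 1 < q)
    (S : Set (Fin r → k[X])) (hS : ∃ L ∈ S, L ≠ 0) (u0 : Fin r → k[X]) (hu0 : u0 ≠ 0)
    (hu : ∀ L ∈ S, ∑ b, L b * u0 b = 0) :
    ∃ x : Fin r → k[X], (∀ L ∈ S, ∑ b, L b * x b = 0) ∧
      ∃ L ∈ S, ∑ b, expand k q ((L b).map σ) * mv Φ x b ≠ 0 := by
  classical
  by_contra hcon
  push Not at hcon
  have hmvdeg : ∀ (x : Fin r → k[X]) (d : ℕ), (∀ b, (x b).natDegree ≤ d) →
      ∀ b, (mv Φ x b).natDegree ≤ f + d := by
    intro x d hx b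
    unfold mv
    apply natDegree_sum_le_of_forall_le
    intro j _
    exact natDegree_mul_le.trans (Nat.add_le_add (hf b j) (hx j))
  have hcomp : ∀ x : Fin r → k[X], (∀ L ∈ S, ∑ b, L b * x b = 0) → ∀ i < q,
      ∀ L ∈ S, ∑ b, L b * (vcp q i (mv Φ x) b).map τ = 0 := by
    intro x hx i hi L hL
    have h1 := (rel_iff hq0 (mv Φ x) (fun b => (L b).map σ)).1 (hcon x hx L hL) i hi
    have h2 := congrArg (Polynomial.map τ) h1
    rw [Polynomial.map_zero, Polynomial.map_sum] at h2
    rw [← h2]
    apply Finset.sum_congr rfl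
    intro b _
    rw [Polynomial.map_mul, map_map_id hτσ]
  -- a nonzero vector of least degree
  have hex : ∃ d : ℕ, ∃ u : Fin r → k[X], (∀ L ∈ S, ∑ b, L b * u b = 0) ∧ u ≠ 0 ∧
      ∀ b, (u b).natDegree ≤ d := by
    refine ⟨∑ b, (u0 b).natDegree, u0, hu, hu0, ?_⟩
    intro b
    exact Finset.single_le_sum (f := fun b => (u0 b).natDegree) (fun _ _ => Nat.zero_le _)
      (Finset.mem_univ b)
  obtain ⟨u, hu1, hu2, hu3⟩ := Nat.find_spec hex
  have hmin := fun m => Nat.find_min hex (m := m)
  set d := Nat.find hex with hd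
  have hd0 : d = 0 := by
    have hne := mv_ne_zero hdet hu2
    obtain ⟨b, hb⟩ : ∃ b, mv Φ u b ≠ 0 := by
      by_contra h
      push Not at h
      exact hne (funext h)
    obtain ⟨i, hi, hib⟩ : ∃ i < q, cp q i (mv Φ u b) ≠ 0 := by
      by_contra h
      push Not at h
      exact hb (eq_zero_of_cp hq0 h)
    by_contra hdne
    have hlt : (f + d) / q < d := by
      rw [Nat.div_lt_iff_lt_mul hq0]
      have : d * q ≥ d * (f + 2) := Nat.mul_le_mul_left d (by omega)
      have h2 : d * (f + 2) = d * f + d + d := by ring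
      have h3 : f ≤ d * f := Nat.le_mul_of_pos_left f (by omega)
      omega
    apply hmin _ hlt
    refine ⟨fun c => (vcp q i (mv Φ u) c).map τ, hcomp u hu1 i hi, ?_, ?_⟩
    · intro h0
      have h1 := congrFun h0 b
      exact hib ((Polynomial.map_eq_zero_iff τ.injective).1 h1)
    · intro c
      beta_reduce
      rw [Polynomial.natDegree_map_eq_of_injective τ.injective]
      refine (natDegree_cp hq0 hi _).trans ?_
      exact Nat.div_le_div_right (hmvdeg u d hu3 c)
  -- constant vectors
  let U : Submodule k (Fin r → k) :=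
    { carrier := {c | ∀ L ∈ S, ∑ b, L b * C (c b) = 0}
      add_mem' := by
        intro a c ha hc L hL
        simp only [Pi.add_apply, map_add, mul_add, Finset.sum_add_distrib]
        rw [ha L hL, hc L hL, add_zero]
      zero_mem' := by
        intro L _
        simp
      smul_mem' := by
        intro t c hc L hL
        have : ∑ b, L b * C ((t • c) b) = C t * ∑ b, L b * C (c b) := by
          rw [Finset.mul_sum]
          apply Finset.sum_congr rfl
          intro b _
          rw [Pi.smul_apply, smul_eq_mul, C_mul]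
          ring
        rw [this, hc L hL, mul_zero] }
  have hmemU : ∀ c, c ∈ U ↔ ∀ L ∈ S, ∑ b, L b * C (c b) = 0 := fun c => Iff.rfl
  have hUbot : U ≠ ⊥ := by
    intro hbot
    apply hu2
    have hc : (fun b => (u b).coeff 0) ∈ U := by
      rw [hmemU]
      intro L hL
      rw [← hu1 L hL]
      apply Finset.sum_congr rfl
      intro b _
      rw [← eq_C_of_natDegree_le_zero (by have := hu3 b; rw [hd0] at this; exact this)]
    rw [hbot, Submodule.mem_bot] at hc
    ext1 b
    rw [eq_C_of_natDegree_le_zero (p := u b) (by have := hu3 b; rw [hd0] at this; exact this)]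
    have := congrFun hc b
    simp only [Pi.zero_apply] at this
    rw [this, map_zero]
    rfl
  have hUtop : U ≠ ⊤ := by
    intro htop
    obtain ⟨L, hL, hL0⟩ := hS
    apply hL0
    ext1 b
    have hc : (Pi.single b 1 : Fin r → k) ∈ U := by rw [htop]; exact Submodule.mem_top
    have h1 := (hmemU _).1 hc L hL
    rw [Finset.sum_eq_single b] at h1
    · simpa using h1
    · intro c _ hcb
      simp [hcb]
    · intro h; exact absurd (Finset.mem_univ b) h
  have hst : StabS σ Φ U := by
    intro c hc n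
    have hdeg0 : ∀ b, (mv Φ (fun j => C (c j)) b).natDegree ≤ f := by
      intro b
      have := hmvdeg (fun j => C (c j)) 0 (fun b => by rw [natDegree_C]) b
      simpa using this
    rcases Nat.lt_or_ge n q with hn | hn
    · refine ⟨fun i => τ ((∑ j, Φ i j * C (c j)).coeff n), ?_, by
        funext i; rw [hστ]⟩
      rw [hmemU]
      intro L hL
      have h1 := hcomp (fun j => C (c j)) hc (q - 1 - n) (by omega) L hL
      rw [← h1]
      apply Finset.sum_congr rfl
      intro b _
      congr 1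
      have hi : q - 1 - n < q := by omega
      have h2 : (cp q (q - 1 - n) (mv Φ (fun j => C (c j)) b)).natDegree ≤ 0 := by
        refine (natDegree_cp hq0 hi _).trans ?_
        rw [Nat.le_zero, Nat.div_eq_zero_iff_lt hq0]
        have := hdeg0 b
        omega
      unfold vcp
      rw [eq_C_of_natDegree_le_zero h2, coeff_cp hq0 hi, Polynomial.map_C]
      congr 3
      omega
    · have : (fun i => (∑ j, Φ i j * C (c j)).coeff n) = fun i => σ ((0 : Fin r → k) i) := by
        ext1 b
        have := hdeg0 b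
        rw [Pi.zero_apply, map_zero]
        exact coeff_eq_zero_of_natDegree_lt (lt_of_le_of_lt this (by omega))
      exact ⟨0, U.zero_mem, this⟩
  rcases hirr U hst with h | h
  · exact hUbot h
  · exact hUtop h

/-- the number of vectors with given components -/
theorem fiber_leS {r s q f M : ℕ} (hq0 : 0 < q) {σ τ : k →+* k} (hστ : ∀ x, σ (τ x) = x)
    (hτσ : ∀ x, τ (σ x) = x)
    {Φ : Matrix (Fin r) (Fin r) k[X]} (hdet : Φ.det ≠ 0)
    (hirr : IrrS σ Φ) (hf : ∀ i j, (Φ i j).natDegree ≤ f) (hfq : f + 1 < q)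
    (u : Fin s → Fin r → k[X]) (W : Finset (Fin r → k[X]))
    (hW : ∀ w ∈ W, (∀ b, w b ∈ PF k M) ∧ w ≠ 0 ∧
      (∀ L : Fin r → k[X], (∀ l, ∑ b, L b * u l b = 0) → ∑ b, expand k q (L b) * mv Φ w b = 0) ∧
      (∀ L : Fin r → k[X], ∑ b, expand k q (L b) * mv Φ w b = 0 →
        ∑ b, L b * (w b).map σ = 0) ∧
      (∃ L : Fin r → k[X], L ≠ 0 ∧ ∀ l, ∑ b, L b * u l b = 0)) :
    W.card ≤ (Fintype.card k ^ M) ^ (s - 1) := by
  classical
  rcases W.eq_empty_or_nonempty with h0 | ⟨w0, hw0⟩
  · rw [h0]; simp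
  obtain ⟨_, hw0ne, hw01, hw02, L0, hL0, hL0u⟩ := hW w0 hw0
  set u' : Fin s → Fin r → k[X] := fun l b => (u l b).map τ with hu'
  -- functionals on the twisted vectors
  have hup : ∀ L : Fin r → k[X], (∀ l, ∑ b, L b * u' l b = 0) →
      ∀ l, ∑ b, (L b).map σ * u l b = 0 := by
    intro L hL l
    have h2 := congrArg (Polynomial.map σ) (hL l)
    rw [Polynomial.map_zero, Polynomial.map_sum] at h2
    rw [← h2]
    apply Finset.sum_congr rfl
    intro b _
    rw [Polynomial.map_mul]
    simp only [hu']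
    rw [map_map_id hστ]
  have hdown : ∀ w ∈ W, ∀ L : Fin r → k[X], (∀ l, ∑ b, L b * u' l b = 0) →
      ∑ b, L b * w b = 0 := by
    intro w hw L hL
    obtain ⟨_, _, hw1, hw2, _⟩ := hW w hw
    have h1 := hw2 _ (hw1 _ (hup L hL))
    have h2 : (∑ b, L b * w b).map σ = 0 := by
      rw [Polynomial.map_sum, ← h1]
      apply Finset.sum_congr rfl
      intro b _
      rw [Polynomial.map_mul]
    exact (Polynomial.map_eq_zero_iff σ.injective).1 h2
  have hL0u' : ∀ l, ∑ b, (L0 b).map τ * u' l b = 0 := by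
    intro l
    have h2 := congrArg (Polynomial.map τ) (hL0u l)
    rw [Polynomial.map_zero, Polynomial.map_sum] at h2
    rw [← h2]
    apply Finset.sum_congr rfl
    intro b _
    rw [Polynomial.map_mul]
  have hL0' : (fun b => (L0 b).map τ) ≠ 0 := by
    intro h
    apply hL0
    ext1 b
    exact (Polynomial.map_eq_zero_iff τ.injective).1 (congrFun h b)
  obtain ⟨x, hx1, L, hL, hx2⟩ := irr_lemmaS hq0 hστ hτσ hdet hirr hf hfq
    {L : Fin r → k[X] | ∀ l, ∑ b, L b * u' l b = 0} ⟨_, hL0u', hL0'⟩ w0 hw0ne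
    (fun L hL => hdown w0 hw0 L hL)
  set Qu : Submodule (FractionRing k[X]) (Fin r → FractionRing k[X]) :=
    Submodule.span _ (Set.range (fun l => io (FractionRing k[X]) (u' l))) with hQu
  set Q : Submodule (FractionRing k[X]) (Fin r → FractionRing k[X]) :=
    Submodule.span _ (io (FractionRing k[X]) '' (W : Set (Fin r → k[X]))) with hQ
  have hin : ∀ y : Fin r → k[X], (∀ L : Fin r → k[X], (∀ l, ∑ b, L b * u' l b = 0) →
      ∑ b, L b * y b = 0) → io (FractionRing k[X]) y ∈ Qu := by
    intro y hy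
    by_contra hcon
    obtain ⟨L, hL, hLy⟩ := exists_sep (FractionRing k[X]) Qu hcon
    apply hLy
    apply hy
    intro l
    apply hL
    exact Submodule.subset_span ⟨l, rfl⟩
  have hle : Q ≤ Qu := by
    rw [hQ, Submodule.span_le]
    rintro _ ⟨w, hw, rfl⟩
    exact hin w (fun L hL => hdown w hw L hL)
  have hxu : io (FractionRing k[X]) x ∈ Qu := hin x hx1
  have hxQ : io (FractionRing k[X]) x ∉ Q := by
    intro hxQ
    apply hx2
    have hswap : ∀ y : Fin r → k[X], ∑ b, expand k q ((L b).map σ) * mv Φ y b =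
        ∑ j, (∑ b, expand k q ((L b).map σ) * Φ b j) * y j := by
      intro y
      unfold mv
      simp only [Finset.mul_sum, Finset.sum_mul]
      rw [Finset.sum_comm]
      apply Finset.sum_congr rfl
      intro j _
      apply Finset.sum_congr rfl
      intro b _
      ring
    rw [hswap]
    apply rel_span (FractionRing k[X]) (W : Set (Fin r → k[X])) _ _ hxQ
    intro w hw
    rw [← hswap]
    exact (hW w hw).2.2.1 _ (hup L hL)
  have hlt : Q < Qu := lt_of_le_of_ne hle (fun h => hxQ (h ▸ hxu))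
  have h1 := Submodule.finrank_lt_finrank_of_lt hlt
  have h2 : Module.finrank (FractionRing k[X]) Qu ≤ s := by
    have := finrank_range_le_card (R := FractionRing k[X])
      (fun l => io (FractionRing k[X]) (u' l))
    rw [Fintype.card_fin] at this
    exact this
  have h3 := card_le_of_subspace (FractionRing k[X]) (M := M) Q W (fun w hw =>
    ⟨(hW w hw).1, Submodule.subset_span ⟨w, hw, rfl⟩⟩)
  refine h3.trans ?_
  have hpos : 0 < Fintype.card k := Fintype.card_pos
  apply Nat.pow_le_pow_right (by positivity)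
  omega

end Pool.Agent.Y515.CntS
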