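import Pool.Agent.Y515.CntS.Dat

/-!
Semilinear version: the part of the sum with a short lattice vector.
-/

set_option autoImplicit false
set_option linter.unusedSectionVars false

open Polynomial Finset
open Pool.Agent.Y709 Pool.Agent.Y515.Cnt Pool.Agent.Y515.CntG

namespace Pool.Agent.Y515.CntS

variable {k : Type} [Field k] [Fintype k]

/-- the number of vectors with given degrees of the lattice data -/
theorem fiber_lQ {r q Q f M N : ℕ} (hQk : Fintype.card k = Q) (hq0 : 0 < q)
    {Φ : Matrix (Fin r) (Fin r) k[X]} (hdet : Φ.det ≠ 0) (T : Finset (Fin r → k[X]))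
    (n : (Fin r → k[X]) → Fin r → k[X]) (A : (Fin r → k[X]) → Fin r → Fin r → k[X])
    (hT : ∀ w ∈ T, DtQ q N (M - 1 + f) (mv Φ w) (n w) (A w)) (l : Fin r → ℕ)
    (hl : ∀ w ∈ T, ∀ j, (n w j).natDegree = l j) :
    T.card ≤ Q ^ (∑ j, ((l j + 1) + r * ((M - 1 + f - l j) / q + 1))) := by
  classical
  have h1 : T.card ≤ ((Fintype.piFinset (fun j : Fin r => PF k (l j + 1))) ×ˢ
      (Fintype.piFinset (fun _ : Fin r => Fintype.piFinset (fun j : Fin r =>
        PF k ((M - 1 + f - l j) / q + 1))))).card := by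
    apply Finset.card_le_card_of_injOn (fun w => (n w, A w))
    · intro w hw
      rw [Finset.mem_coe, Finset.mem_product, Fintype.mem_piFinset, Fintype.mem_piFinset]
      refine ⟨?_, ?_⟩
      · intro j
        rw [mem_PF_succ, ← hl w hw j]
      · intro i
        rw [Fintype.mem_piFinset]
        intro j
        rcases (hT w hw).hA i j with h | h
        · show A w i j ∈ _
          rw [h]; exact zero_mem_PF _
        · show A w i j ∈ _
          rw [mem_PF_succ, Nat.le_div_iff_mul_le hq0, mul_comm, ← hl w hw j]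
          omega
    · intro w hw z hz hwz
      simp only [Prod.mk.injEq] at hwz
      apply mv_injective hdet
      ext1 i
      rw [(hT w hw).hv i, (hT z hz).hv i, hwz.1, hwz.2]
  rw [Finset.card_product, Fintype.card_piFinset, Fintype.card_piFinset, Finset.prod_const,
    Fintype.card_piFinset, Finset.card_univ, Fintype.card_fin] at h1
  refine h1.trans (le_of_eq ?_)
  simp only [card_PF, hQk]
  rw [← Finset.prod_pow_eq_pow_sum, ← Finset.prod_pow, ← Finset.prod_mul_distrib]
  apply Finset.prod_congr rfl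
  intro j _
  rw [← pow_mul, ← pow_add]
  congr 1
  ring

theorem sum_shortQ {r q Q f M N ρ : ℕ} (hQk : Fintype.card k = Q) (hqQ : q ≤ Q)
    {Φ : Matrix (Fin r) (Fin r) k[X]} (hdet : Φ.det ≠ 0)
    (hq : r * f + 3 * r ^ 2 + 6 * r + 8 ≤ q) (hM : 4 * r ^ 2 + 8 ≤ M)
    (hN : N + 1 = (q - 1) * M + ρ) (T : Finset (Fin r → k[X]))
    (n : (Fin r → k[X]) → Fin r → k[X]) (A : (Fin r → k[X]) → Fin r → Fin r → k[X])
    (hT : ∀ w ∈ T, DtQ q N (M - 1 + f) (mv Φ w) (n w) (A w) ∧
      ∃ j, (n w j).natDegree + q ≤ M - 1 + f) :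
    ∑ w ∈ T, ((KerF q N (mv Φ w)).card : ℝ) ≤ (Q : ℝ) ^ N := by
  classical
  have hq0 : 0 < q := by omega
  have hqR : (1 : ℝ) ≤ (Q : ℝ) := by
    have : 1 ≤ Q := by omega
    exact_mod_cast this
  have hq2 : (2 : ℝ) ≤ (Q : ℝ) := by
    have : 2 ≤ Q := by omega
    exact_mod_cast this
  have hqQR : (q : ℝ) ≤ (Q : ℝ) := by exact_mod_cast hqQ
  have hM1 : 1 ≤ M := by omega
  have hrq : r + 1 ≤ q := by nlinarith
  set V := M - 1 + f with hV
  set a : ℕ → ℕ := fun l => (V - l) / q with ha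
  have hmaps : ∀ w ∈ T, (fun j => (n w j).natDegree) ∈
      (Fintype.piFinset (fun _ : Fin r => Finset.range (V + 1))) := by
    intro w hw
    rw [Fintype.mem_piFinset]
    intro j
    rw [Finset.mem_range]
    have := (hT w hw).1.hl j
    omega
  rw [← Finset.sum_fiberwise_of_maps_to hmaps]
  have hterm : ∀ l ∈ Fintype.piFinset (fun _ : Fin r => Finset.range (V + 1)),
      ∑ w ∈ T with (fun j => (n w j).natDegree) = l, ((KerF q N (mv Φ w)).card : ℝ) ≤
      ((Q : ℝ) ^ (N + 1) * (Q : ℝ) ^ (r * (f + r + 1)) / (Q : ℝ) ^ (q - r - 2)) *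
        ∏ j, 1 / (Q : ℝ) ^ (a (l j)) := by
    intro l hl
    rw [Fintype.mem_piFinset] at hl
    set T' := T.filter (fun w => (fun j => (n w j).natDegree) = l) with hT'
    have hsub : ∀ w ∈ T', w ∈ T ∧ ∀ j, (n w j).natDegree = l j := by
      intro w hw
      rw [hT', Finset.mem_filter] at hw
      exact ⟨hw.1, fun j => congrFun hw.2 j⟩
    rcases T'.eq_empty_or_nonempty with h0 | ⟨w0, hw0⟩
    · rw [h0, Finset.sum_empty]
      apply mul_nonneg (by positivity)
      exact Finset.prod_nonneg (fun j _ => by positivity)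
    have hex : ∃ j, l j + q ≤ V := by
      obtain ⟨j, hj⟩ := (hT w0 (hsub w0 hw0).1).2
      rw [(hsub w0 hw0).2 j] at hj
      exact ⟨j, hj⟩
    have hcard := fiber_lQ hQk hq0 hdet T' n A (fun w hw => (hT w (hsub w hw).1).1) l
      (fun w hw => (hsub w hw).2)
    set e : ℕ := ∑ j, (N + 1 + l j) / q with he
    have hone : ∀ w ∈ T', ((KerF q N (mv Φ w)).card : ℝ) ≤ (Q : ℝ) ^ (N + 1) / (Q : ℝ) ^ e := by
      intro w hw
      have h1 := (hT w (hsub w hw).1).1.hcount
      have h2 : ∑ j, (N + 1 + (n w j).natDegree) / q = e := by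
        rw [he]
        apply Finset.sum_congr rfl
        intro j _
        rw [(hsub w hw).2 j]
      rw [h2, hQk] at h1
      rw [le_div_iff₀ (by positivity)]
      exact_mod_cast h1
    have hsumexp : ∑ j, ((l j + 1) + r * ((V - l j) / q + 1)) + (q - r - 1) * ∑ j, a (l j) ≤
        r * (f + r + 1) + e := by
      have h1 : ∑ j, (((l j + 1) + r * ((V - l j) / q + 1)) + (q - r - 1) * ((V - l j) / q)) ≤
          ∑ j, (f + r + 1 + (N + 1 + l j) / q) := by
        apply Finset.sum_le_sum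
        intro j _
        have hlj := hl j
        rw [Finset.mem_range] at hlj
        exact arith_B hrq hM1 hN (by omega)
      rw [Finset.sum_add_distrib, Finset.sum_add_distrib (f := fun _ => f + r + 1),
        Finset.sum_const, Finset.card_univ, Fintype.card_fin, smul_eq_mul,
        ← Finset.mul_sum] at h1
      exact h1
    have hsuma : 1 ≤ ∑ j, a (l j) := by
      obtain ⟨j, hj⟩ := hex
      have h1 : 1 ≤ a (l j) := by
        simp only [ha]
        rw [Nat.le_div_iff_mul_le hq0]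
        omega
      exact h1.trans (Finset.single_le_sum (f := fun j => a (l j)) (fun _ _ => Nat.zero_le _)
        (Finset.mem_univ j))
    have hsplit : (q - r - 2) + ∑ j, a (l j) ≤ (q - r - 1) * ∑ j, a (l j) := by
      have hr2 : r + 2 ≤ q := by omega
      obtain ⟨c, hc⟩ : ∃ c, q = c + r + 2 := ⟨q - r - 2, by omega⟩
      have e1 : q - r - 2 = c := by omega
      have e2 : q - r - 1 = c + 1 := by omega
      rw [e1, e2]
      nlinarith
    calc ∑ w ∈ T', ((KerF q N (mv Φ w)).card : ℝ) ≤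
        ∑ w ∈ T', (Q : ℝ) ^ (N + 1) / (Q : ℝ) ^ e := Finset.sum_le_sum hone
      _ = (T'.card : ℝ) * ((Q : ℝ) ^ (N + 1) / (Q : ℝ) ^ e) := by
          rw [Finset.sum_const, nsmul_eq_mul]
      _ ≤ (Q : ℝ) ^ (∑ j, ((l j + 1) + r * ((V - l j) / q + 1))) *
          ((Q : ℝ) ^ (N + 1) / (Q : ℝ) ^ e) := by
          apply mul_le_mul_of_nonneg_right _ (by positivity)
          exact_mod_cast hcard
      _ ≤ (Q : ℝ) ^ (N + 1) * (Q : ℝ) ^ (r * (f + r + 1)) / (Q : ℝ) ^ (q - r - 2) /
          (Q : ℝ) ^ (∑ j, a (l j)) := by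
          rw [← mul_div_assoc, div_div, div_le_div_iff₀ (by positivity) (by positivity),
            ← pow_add, ← pow_add, ← pow_add, ← pow_add, ← pow_add]
          apply pow_le_pow_right₀ hqR
          omega
      _ = _ := by
          rw [← Finset.prod_pow_eq_pow_sum, Finset.prod_div_distrib, Finset.prod_const_one]
          rw [mul_one_div]
  refine (Finset.sum_le_sum hterm).trans ?_
  rw [← Finset.mul_sum]
  have hprod : ∑ l ∈ Fintype.piFinset (fun _ : Fin r => Finset.range (V + 1)),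
      ∏ j, 1 / (Q : ℝ) ^ (a (l j)) = (∑ x ∈ Finset.range (V + 1), 1 / (Q : ℝ) ^ (a x)) ^ r := by
    rw [← Finset.prod_univ_sum (fun _ : Fin r => Finset.range (V + 1))
      (fun _ x => 1 / (Q : ℝ) ^ (a x)), Finset.prod_const, Finset.card_univ, Fintype.card_fin]
  rw [hprod]
  have hs : ∑ x ∈ Finset.range (V + 1), 1 / (Q : ℝ) ^ (a x) ≤ (Q : ℝ) ^ 2 := by
    rw [← Finset.sum_range_reflect]
    have h1 : ∑ j ∈ Finset.range (V + 1), 1 / (Q : ℝ) ^ (a (V + 1 - 1 - j)) =
        ∑ j ∈ Finset.range (V + 1), 1 / (Q : ℝ) ^ (j / q) := by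
      apply Finset.sum_congr rfl
      intro j hj
      rw [Finset.mem_range] at hj
      simp only [ha]
      congr 3
      omega
    rw [h1]
    refine (sum_floor (Q : ℝ) hq2 q (V + 1) hq0).trans ?_
    nlinarith
  have hs0 : 0 ≤ ∑ x ∈ Finset.range (V + 1), 1 / (Q : ℝ) ^ (a x) :=
    Finset.sum_nonneg (fun x _ => by positivity)
  calc _ ≤ (Q : ℝ) ^ (N + 1) * (Q : ℝ) ^ (r * (f + r + 1)) / (Q : ℝ) ^ (q - r - 2) *
      ((Q : ℝ) ^ 2) ^ r := by
        apply mul_le_mul_of_nonneg_left _ (by positivity)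
        exact pow_le_pow_left₀ hs0 hs r
    _ ≤ (Q : ℝ) ^ N := by
        rw [div_mul_eq_mul_div, div_le_iff₀ (by positivity), ← pow_mul, ← pow_add, ← pow_add,
          ← pow_add]
        apply pow_le_pow_right₀ hqR
        have e1 : r * (f + r + 1) = r * f + r ^ 2 + r := by ring
        rw [e1]
        have : r * f + r ^ 2 + r + 2 * r + r + 3 ≤ q := by nlinarith
        omega

end Pool.Agent.Y515.CntS
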