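import Pool.Agent.Y515.CntS.Low

/-!
Semilinear version: the sum over the vectors whose components do not span.
-/

set_option autoImplicit false
set_option linter.unusedSectionVars false

open Polynomial Finset
open Pool.Agent.Y709 Pool.Agent.Y515.Cnt Pool.Agent.Y515.CntG

namespace Pool.Agent.Y515.CntS

variable {k : Type} [Field k] [Fintype k]

theorem sum_lowS {r q Q f M N ρ : ℕ} (hQk : Fintype.card k = Q) (hqQ : q ≤ Q)
    {σ τ : k →+* k} (hστ : ∀ x, σ (τ x) = x) (hτσ : ∀ x, τ (σ x) = x)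
    {Φ : Matrix (Fin r) (Fin r) k[X]} (hdet : Φ.det ≠ 0)
    (hirr : IrrS σ Φ) (hf : ∀ i j, (Φ i j).natDegree ≤ f)
    (hq : r * f + 3 * r ^ 2 + 6 * r + 8 ≤ q) (hM : 4 * r ^ 2 + 8 ≤ M)
    (hρ1 : 1 ≤ ρ) (hρ : ρ + f ≤ q - 1)
    (hN : N + 1 = (q - 1) * M + ρ) (T : Finset (Fin r → k[X]))
    (hT : ∀ w ∈ T, (∀ b, w b ∈ PF k M) ∧ w ≠ 0 ∧ (∃ D, IsFixS q σ Φ D w) ∧
      ∃ L : Fin r → k[X], L ≠ 0 ∧ ∑ b, expand k q (L b) * mv Φ w b = 0) :
    ∑ w ∈ T, ((FixS q N σ Φ w).card : ℝ) ≤ (Q : ℝ) ^ N := by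
  classical
  have hq0 : 0 < q := by omega
  have hfq : f + 1 < q := by omega
  have hM1 : 1 ≤ M := by omega
  have hqR : (1 : ℝ) ≤ (Q : ℝ) := by
    have : 1 ≤ Q := by omega
    exact_mod_cast this
  choose s i hi hind hrel hs1 hs2 using fun w : Fin r → k[X] => exists_comps hq0 (mv Φ w)
  have hs : ∀ w ∈ T, s w ∈ Finset.Ico 1 r := by
    intro w hw
    obtain ⟨_, h2, _, h4⟩ := hT w hw
    rw [Finset.mem_Ico]
    exact ⟨hs2 w (mv_ne_zero hdet h2), hs1 w h4⟩
  rw [← Finset.sum_fiberwise_of_maps_to hs]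
  have hterm : ∀ t ∈ Finset.Ico 1 r,
      ∑ w ∈ T with s w = t, ((FixS q N σ Φ w).card : ℝ) ≤ (Q : ℝ) ^ (N - 1) := by
    intro t ht
    rw [Finset.mem_Ico] at ht
    set T' := T.filter (fun w => s w = t) with hT'
    have hsub : ∀ w ∈ T', w ∈ T ∧ s w = t := by
      intro w hw; rw [hT', Finset.mem_filter] at hw; exact hw
    -- number of vectors
    let u : (Fin r → k[X]) → Fin t → Fin r → k[X] := fun w l =>
      if h : (l : ℕ) < s w then vcp q (i w ⟨l, h⟩) (mv Φ w) else 0
    have himg : T'.image u ⊆ Fintype.piFinset (fun _ : Fin t => Fintype.piFinset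
        (fun _ : Fin r => PF k ((M - 1 + f) / q + 1))) := by
      intro x hx
      rw [Finset.mem_image] at hx
      obtain ⟨w, hw, rfl⟩ := hx
      rw [Fintype.mem_piFinset]
      intro l
      rw [Fintype.mem_piFinset]
      intro b
      have hl : (l : ℕ) < s w := by rw [(hsub w hw).2]; exact l.2
      simp only [u]
      rw [dif_pos hl, mem_PF_succ]
      unfold vcp
      refine (natDegree_cp hq0 (hi w _) _).trans ?_
      exact Nat.div_le_div_right (natDegree_mv_le hf hM1 (hT w (hsub w hw).1).1 b)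
    have hfib : ∀ x ∈ T'.image u, (T'.filter (fun w => u w = x)).card ≤ (Q ^ M) ^ (t - 1) := by
      intro x _
      rw [← hQk]
      apply fiber_leS hq0 hστ hτσ hdet hirr hf hfq x
      intro w hw
      rw [Finset.mem_filter] at hw
      obtain ⟨hwT', hux⟩ := hw
      obtain ⟨hwT, hst⟩ := hsub w hwT'
      obtain ⟨h1, h2, ⟨D, hD⟩, L, hL0, hL⟩ := hT w hwT
      have hxl : ∀ (l : Fin (s w)), ∀ (h : (l : ℕ) < t), x ⟨l, h⟩ = vcp q (i w l) (mv Φ w) := by
        intro l h
        rw [← hux]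
        simp only [u]
        rw [dif_pos l.2]
      refine ⟨h1, h2, ?_, ?_, L, hL0, ?_⟩
      · intro L' hL'
        apply hrel
        intro l
        have h := hL' ⟨l, by rw [← hst]; exact l.2⟩
        rw [hxl l] at h
        exact h
      · intro L' hL'
        have h := rel_cart hq0 hL' D
        rw [← h]
        apply Finset.sum_congr rfl
        intro b _
        congr 1
        exact (hD b).symm
      · intro l
        have hl : (l : ℕ) < s w := by rw [hst]; exact l.2
        have h := hxl ⟨l, hl⟩ l.2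
        simp only [Fin.eta] at h
        rw [h]
        exact (rel_iff hq0 _ _).1 hL _ (hi w _)
    have hcard := Finset.card_le_mul_card_image T' _ hfib
    have hcard2 := Finset.card_le_card himg
    rw [Fintype.card_piFinset, Finset.prod_const, Fintype.card_piFinset, Finset.prod_const,
      card_PF, Finset.card_univ, Fintype.card_fin, Finset.card_univ, Fintype.card_fin, hQk] at hcard2
    have hcard3 : T'.card ≤ Q ^ (M * (t - 1) + ((M - 1 + f) / q + 1) * (r * t)) := by
      refine (hcard.trans (Nat.mul_le_mul_left _ hcard2)).trans (le_of_eq ?_)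
      rw [← pow_mul, ← pow_mul, ← pow_mul, ← pow_add]
    -- each term
    have hone : ∀ w ∈ T', ((FixS q N σ Φ w).card : ℝ) ≤
        (Q : ℝ) ^ (N + 1) / (Q : ℝ) ^ (t * ((N + 1) / q)) := by
      intro w hw
      have h1 := ker_indepQ hq0 (N := N) (mv Φ w) (i w) (hi w) (hind w)
      have h2 := card_fixS_le (N := N) hq0 σ Φ w
      rw [(hsub w hw).2, hQk] at h1
      rw [le_div_iff₀ (by positivity)]
      calc ((FixS q N σ Φ w).card : ℝ) * (Q : ℝ) ^ (t * ((N + 1) / q)) ≤
          ((KerF q N (mv Φ w)).card : ℝ) * (Q : ℝ) ^ (t * ((N + 1) / q)) := by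
            apply mul_le_mul_of_nonneg_right _ (by positivity)
            exact_mod_cast h2
        _ ≤ (Q : ℝ) ^ (N + 1) := by exact_mod_cast h1
    calc ∑ w ∈ T', ((FixS q N σ Φ w).card : ℝ) ≤
        ∑ w ∈ T', (Q : ℝ) ^ (N + 1) / (Q : ℝ) ^ (t * ((N + 1) / q)) := Finset.sum_le_sum hone
      _ = (T'.card : ℝ) * ((Q : ℝ) ^ (N + 1) / (Q : ℝ) ^ (t * ((N + 1) / q))) := by
          rw [Finset.sum_const, nsmul_eq_mul]
      _ ≤ (Q : ℝ) ^ (M * (t - 1) + ((M - 1 + f) / q + 1) * (r * t)) *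
          ((Q : ℝ) ^ (N + 1) / (Q : ℝ) ^ (t * ((N + 1) / q))) := by
          apply mul_le_mul_of_nonneg_right _ (by positivity)
          exact_mod_cast hcard3
      _ ≤ (Q : ℝ) ^ (N - 1) := by
          rw [← mul_div_assoc, div_le_iff₀ (by positivity), ← pow_add, ← pow_add]
          apply pow_le_pow_right₀ hqR
          have := arith_low hq hM hN ht.1 ht.2
          have hN1 : 1 ≤ N := by
            have : 2 * M ≤ (q - 1) * M := Nat.mul_le_mul_right _ (by omega)
            omega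
          omega
  have hN1 : 1 ≤ N := by
    have : 2 * M ≤ (q - 1) * M := Nat.mul_le_mul_right _ (by omega)
    omega
  calc _ ≤ ∑ t ∈ Finset.Ico 1 r, (Q : ℝ) ^ (N - 1) := Finset.sum_le_sum hterm
    _ = ((r - 1 : ℕ) : ℝ) * (Q : ℝ) ^ (N - 1) := by
        rw [Finset.sum_const, Nat.card_Ico, nsmul_eq_mul]
    _ ≤ (Q : ℝ) * (Q : ℝ) ^ (N - 1) := by
        apply mul_le_mul_of_nonneg_right _ (by positivity)
        have : r - 1 ≤ Q := by nlinarith [Nat.sub_le r 1]
        exact_mod_cast this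
    _ = (Q : ℝ) ^ N := by
        rw [← pow_succ']
        congr 1
        omega

end Pool.Agent.Y515.CntS
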